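import Pool.Agent.Work.MP_2cd205_al.Rep

/-!
# `Γ(K_{3,6})` does not have property (T)
-/

namespace Pool.Agent.Results.MP_2cd205_al.NotPropertyT

open Pool.Agent.Work.MP_2cd205_al

/-- The graph incidence group `Γ(K_{3,6})` does not have Kazhdan's property (T): there is a unitary
representation with almost invariant vectors and no nonzero invariant vector. -/
theorem result : ¬ HasPropertyT GammaK36 :=
  not_propertyT

end Pool.Agent.Results.MP_2cd205_al.NotPropertyT
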